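import Pool.Agent.Helper25.FB.Spec

set_option autoImplicit false

namespace Pool.Agent.Helper21.FB

open Pool.Agent.Helper25.FB Filter Topology Metric Set

/-- the outer region is open -/
lemma isOpen_outer (ρ : ℝ) : IsOpen {s : ℂ | ρ < ‖s‖} := isOpen_lt continuous_const continuous_norm

lemma dat {φ : ℂ → ℂ} {ρ : ℝ} (h : DifferentiableOn ℂ φ {s | ρ < ‖s‖}) {s : ℂ} (hs : ρ < ‖s‖) :
    DifferentiableAt ℂ φ s := h.differentiableAt ((isOpen_outer ρ).mem_nhds hs)

/-- deformation of circles in the outer region -/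
lemma circ_le {f : ℂ → ℂ} {ρ : ℝ} (hρ : 0 ≤ ρ) (h : DifferentiableOn ℂ f {s | ρ < ‖s‖}) {R R' : ℝ}
    (hR : ρ < R) (hle : R ≤ R') : (∮ s in C(0, R'), f s) = ∮ s in C(0, R), f s := by
  have h0 : 0 < R := lt_of_le_of_lt hρ hR
  refine Complex.circleIntegral_eq_of_differentiable_on_annulus_off_countable h0 hle
    Set.countable_empty ?_ ?_
  · intro s hs
    have h1 : ρ < ‖s‖ := by
      have := hs.2
      simp only [mem_ball, dist_zero_right, not_lt] at this
      linarith
    exact (dat h h1).continuousAt.continuousWithinAt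
  · intro s hs
    have h1 : ρ < ‖s‖ := by
      have := hs.1.2
      simp only [mem_closedBall, dist_zero_right, not_le] at this
      linarith
    exact dat h h1

lemma circ_eq {f : ℂ → ℂ} {ρ : ℝ} (hρ : 0 ≤ ρ) (h : DifferentiableOn ℂ f {s | ρ < ‖s‖}) {R R' : ℝ}
    (hR : ρ < R) (hR' : ρ < R') : (∮ s in C(0, R), f s) = ∮ s in C(0, R'), f s := by
  rcases le_total R R' with h1 | h1
  · exact (circ_le hρ h hR h1).symm
  · exact circ_le hρ h hR' h1

lemma diff_mul_zpow {φ : ℂ → ℂ} {ρ : ℝ} (hρ : 0 ≤ ρ) (h : DifferentiableOn ℂ φ {s | ρ < ‖s‖})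
    (n : ℤ) : DifferentiableOn ℂ (fun s => φ s * s ^ n) {s | ρ < ‖s‖} := by
  intro s hs
  have hs' : ρ < ‖s‖ := hs
  have hne : s ≠ 0 := by
    intro h0
    rw [h0, norm_zero] at hs'
    linarith
  exact ((dat h hs).mul (differentiableAt_zpow.2 (Or.inl hne))).differentiableWithinAt

theorem lc_eq {φ : ℂ → ℂ} {ρ : ℝ} (hρ : 0 ≤ ρ) (h : DifferentiableOn ℂ φ {s | ρ < ‖s‖})
    {R R' : ℝ} (n : ℤ) (hR : ρ < R) (hR' : ρ < R') : Lc R φ n = Lc R' φ n := by
  unfold Lc
  rw [circ_eq hρ (diff_mul_zpow hρ h (-n - 1)) hR hR']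

theorem lc_le {φ : ℂ → ℂ} {R M : ℝ} (n : ℤ) (hR : 0 < R) (hM : ∀ s, ‖s‖ = R → ‖φ s‖ ≤ M) :
    ‖Lc R φ n‖ ≤ M * R ^ (-n) := by
  have h := circleIntegral.norm_two_pi_i_inv_smul_integral_le_of_norm_le_const
    (f := fun s => φ s * s ^ (-n - 1)) (c := 0) (R := R) (C := M * R ^ (-n - 1)) hR.le (by
      intro s hs
      have hs' : ‖s‖ = R := by simpa using hs
      rw [norm_mul, norm_zpow, hs']
      exact mul_le_mul_of_nonneg_right (hM s hs') (zpow_nonneg hR.le _))
  unfold Lc
  rw [smul_eq_mul] at h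
  refine h.trans (le_of_eq ?_)
  rw [zpow_sub_one₀ hR.ne']
  field_simp

theorem lc_zero {φ : ℂ → ℂ} {ρ : ℝ} (hρ : 0 ≤ ρ) (h : DifferentiableOn ℂ φ {s | ρ < ‖s‖})
    {R : ℝ} (hR : ρ < R) (hz : ∀ n : ℕ, Lc R φ n = 0) :
    Tendsto φ (Bornology.cobounded ℂ) (𝓝 0) := by
  have hR0 : 0 < R := lt_of_le_of_lt hρ hR
  have h2pi : (2 * Real.pi * Complex.I : ℂ) ≠ 0 := Complex.two_pi_I_ne_zero
  -- the bound on the circle
  obtain ⟨M, hM0, hM⟩ : ∃ M : ℝ, 0 ≤ M ∧ ∀ s, ‖s‖ = R → ‖φ s‖ ≤ M := by
    have hc : ContinuousOn φ (sphere (0 : ℂ) R) := by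
      intro s hs
      have hs' : ‖s‖ = R := by simpa using hs
      exact (dat h (by rw [hs']; exact hR)).continuousAt.continuousWithinAt
    obtain ⟨M, hM⟩ := (isCompact_sphere (0 : ℂ) R).exists_bound_of_continuousOn hc
    refine ⟨max M 0, le_max_right _ _, fun s hs => (hM s (by simpa using hs)).trans (le_max_left _ _)⟩
  -- the key formula
  have key : ∀ t : ℂ, R < ‖t‖ →
      φ t = -((2 * Real.pi * Complex.I : ℂ)⁻¹ * ∮ s in C(0, R), φ s * (s - t)⁻¹) := by
    intro t ht
    set R' : ℝ := ‖t‖ + 1 with hR'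
    have hRR' : R ≤ R' := by linarith
    have hρR' : ρ < R' := by linarith
    have htr : ρ < ‖t‖ := by linarith
    -- dslope
    have hψ : DifferentiableOn ℂ (dslope φ t) {s | ρ < ‖s‖} :=
      (Complex.differentiableOn_dslope ((isOpen_outer ρ).mem_nhds htr)).2 h
    have e1 := circ_le hρ hψ hR hRR'
    have hci : ∀ r : ℝ, ρ < r → CircleIntegrable φ 0 r := by
      intro r hr
      refine ContinuousOn.circleIntegrable (lt_of_le_of_lt hρ hr).le ?_
      intro s hs
      have hs' : ‖s‖ = r := by simpa using hs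
      exact (dat h (by rw [hs']; exact hr)).continuousAt.continuousWithinAt
    have split : ∀ r : ℝ, ρ < r → r ≠ ‖t‖ → (∮ s in C(0, r), dslope φ t s) =
        (∮ s in C(0, r), φ s * (s - t)⁻¹) - φ t * ∮ s in C(0, r), (s - t)⁻¹ := by
      intro r hr hne
      have hr0 : 0 < r := lt_of_le_of_lt hρ hr
      have hst : ∀ s ∈ sphere (0 : ℂ) r, s - t ≠ 0 := by
        intro s hs h0
        have hs' : ‖s‖ = r := by simpa using hs
        rw [sub_eq_zero] at h0
        rw [h0] at hs'
        exact hne hs'.symm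
      have c1 : ContinuousOn (fun s : ℂ => (s - t)⁻¹) (sphere (0 : ℂ) r) :=
        ContinuousOn.inv₀ (by fun_prop) hst
      have c2 : ContinuousOn (fun s : ℂ => φ s * (s - t)⁻¹) (sphere (0 : ℂ) r) := by
        refine ContinuousOn.mul ?_ c1
        intro s hs
        have hs' : ‖s‖ = r := by simpa using hs
        exact (dat h (by rw [hs']; exact hr)).continuousAt.continuousWithinAt
      have i1 : CircleIntegrable (fun s : ℂ => (s - t)⁻¹) 0 r := c1.circleIntegrable hr0.le
      have i2 : CircleIntegrable (fun s : ℂ => φ s * (s - t)⁻¹) 0 r := c2.circleIntegrable hr0.le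
      have i3 : CircleIntegrable (fun s : ℂ => φ t * (s - t)⁻¹) 0 r :=
        (continuousOn_const.mul c1).circleIntegrable hr0.le
      have : (∮ s in C(0, r), dslope φ t s) =
          ∮ s in C(0, r), (φ s * (s - t)⁻¹ - φ t * (s - t)⁻¹) := by
        refine circleIntegral.integral_congr hr0.le ?_
        intro s hs
        have hs2 : s ≠ t := fun hh => hst s hs (by rw [hh, sub_self])
        simp only [dslope_of_ne _ hs2, slope_def_field]
        rw [div_eq_mul_inv, sub_mul]
      rw [this, circleIntegral.integral_sub i2 i3]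
      congr 1
      have := circleIntegral.integral_smul (φ t) (fun s : ℂ => (s - t)⁻¹) 0 r
      simp only [smul_eq_mul] at this
      exact this
    rw [split R' hρR' (by rw [hR']; linarith), split R hR (by linarith)] at e1
    have e2 : (∮ s in C(0, R'), (s - t)⁻¹) = 2 * Real.pi * Complex.I :=
      circleIntegral.integral_sub_inv_of_mem_ball (by simp [hR'])
    have e3 : (∮ s in C(0, R), (s - t)⁻¹) = 0 := by
      refine Complex.circleIntegral_eq_zero_of_differentiable_on_off_countable hR0.le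
        Set.countable_empty ?_ ?_
      · intro s hs
        have hs' : ‖s‖ ≤ R := by simpa using hs
        have : s - t ≠ 0 := by
          intro h0; rw [sub_eq_zero] at h0; rw [h0] at hs'; linarith
        exact ((continuousAt_id.sub continuousAt_const).inv₀ this).continuousWithinAt
      · intro s hs
        have hs' : ‖s‖ < R := by simpa using hs.1
        have : s - t ≠ 0 := by
          intro h0; rw [sub_eq_zero] at h0; rw [h0] at hs'; linarith
        exact ((differentiableAt_id (𝕜 := ℂ)).sub_const t).inv this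
    -- the outer integral vanishes
    have e4 : (∮ s in C(0, R'), φ s * (s - t)⁻¹) = 0 := by
      have hs := hasSum_cauchyPowerSeries_integral (f := φ) (c := 0) (R := R') (w := t)
        (hci R' hρR') (by simp [hR'])
      have hzero : ∀ n : ℕ, (cauchyPowerSeries φ 0 R' n fun _ => t) = 0 := by
        intro n
        rw [cauchyPowerSeries_apply]
        have h1 : (∮ z in C(0, R'), (t / (z - 0)) ^ n • (z - 0)⁻¹ • φ z) =
            ∮ z in C(0, R'), t ^ n • (φ z * z ^ (-(n : ℤ) - 1)) := by
          refine circleIntegral.integral_congr (by linarith [norm_nonneg t]) ?_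
          intro z hz
          have hz' : ‖z‖ = R' := by simpa using hz
          have hz0 : z ≠ 0 := by
            intro h0; rw [h0, norm_zero] at hz'; linarith [norm_nonneg t]
          simp only [sub_zero, smul_eq_mul]
          rw [zpow_sub_one₀ hz0, zpow_neg, zpow_natCast, div_pow]
          field_simp
        rw [h1, circleIntegral.integral_smul]
        have h2 : Lc R' φ n = 0 := by rw [← lc_eq hρ h n hR hρR']; exact hz n
        unfold Lc at h2
        rw [smul_comm, smul_eq_mul, smul_eq_mul, h2, mul_zero]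
      have hs0 : HasSum (fun n : ℕ => cauchyPowerSeries φ 0 R' n fun _ => t) 0 := by
        simp only [hzero]
        exact hasSum_zero
      have h3 := hs.unique hs0
      have h4 : (∮ s in C(0, R'), (s - (0 + t))⁻¹ • φ s) = ∮ s in C(0, R'), φ s * (s - t)⁻¹ := by
        congr 1
        funext s
        rw [zero_add, smul_eq_mul, mul_comm]
      rw [h4] at h3
      rcases mul_eq_zero.1 h3 with h5 | h5
      · exact absurd h5 (inv_ne_zero h2pi)
      · exact h5
    rw [e2, e3, e4] at e1
    have e5 : (∮ s in C(0, R), φ s * (s - t)⁻¹) = - (φ t * (2 * Real.pi * Complex.I)) := by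
      rw [mul_zero, sub_zero, zero_sub] at e1
      exact e1.symm
    rw [e5]
    field_simp
  -- the bound
  have bound : ∀ t : ℂ, R < ‖t‖ → ‖φ t‖ ≤ R * (M * (‖t‖ - R)⁻¹) := by
    intro t ht
    rw [key t ht, norm_neg]
    have h1 := circleIntegral.norm_two_pi_i_inv_smul_integral_le_of_norm_le_const
      (f := fun s => φ s * (s - t)⁻¹) (c := 0) (R := R) (C := M * (‖t‖ - R)⁻¹) hR0.le (by
        intro s hs
        have hs' : ‖s‖ = R := by simpa using hs
        rw [norm_mul, norm_inv]
        have h2 : ‖t‖ - R ≤ ‖s - t‖ := by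
          have := norm_sub_norm_le t s
          rw [norm_sub_rev] at this
          linarith
        exact mul_le_mul (hM s hs') (inv_anti₀ (by linarith) h2) (inv_nonneg.2 (norm_nonneg _)) hM0)
    rwa [smul_eq_mul] at h1
  have hlim : Tendsto (fun t : ℂ => R * (M * (‖t‖ - R)⁻¹)) (Bornology.cobounded ℂ) (𝓝 0) := by
    have h1 : Tendsto (fun t : ℂ => ‖t‖ - R) (Bornology.cobounded ℂ) atTop :=
      tendsto_atTop_add_const_right _ (-R) tendsto_norm_cobounded_atTop
    have h2 := (tendsto_inv_atTop_zero.comp h1).const_mul (R * M)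
    simp only [Function.comp_def, mul_zero] at h2
    refine h2.congr (fun t => by ring)
  refine squeeze_zero_norm' ?_ hlim
  have : ∀ᶠ t : ℂ in Bornology.cobounded ℂ, R < ‖t‖ :=
    tendsto_norm_cobounded_atTop.eventually (eventually_gt_atTop R)
  exact this.mono bound

end Pool.Agent.Helper21.FB

namespace Pool.Agent.Helper25.FB

theorem lau_thm : S_LAU := by
  intro φ ρ hρ h
  refine ⟨fun R R' n hR hR' => Pool.Agent.Helper21.FB.lc_eq hρ h n hR hR', fun R M n hR hM =>
    Pool.Agent.Helper21.FB.lc_le n (lt_of_le_of_lt hρ hR) hM, fun R hR hz =>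
    Pool.Agent.Helper21.FB.lc_zero hρ h hR hz⟩

end Pool.Agent.Helper25.FB
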