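import Pool.Agent.Helper25.FB.Spec

set_option autoImplicit false

namespace Pool.Agent.Helper21.FB.End1

open Pool.Agent.Helper25.FB MvPolynomial

lemma eval_two (F : Pol) (x y : ℂ) :
    eval ![x, y] F = ∑ d ∈ F.support, coeff d F * (x ^ d 0 * y ^ d 1) := by
  rw [eval_eq']
  simp [Fin.prod_univ_two]

lemma deg_two {F : Pol} {m : ℕ} (hF : F.IsHomogeneous m) {d : Fin 2 →₀ ℕ} (hd : d ∈ F.support) :
    d 0 + d 1 = m := by
  have h := hF.degree_eq_sum_deg_support hd
  rw [h]
  have : d.degree = d 0 + d 1 := by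
    rw [Finsupp.degree_eq_sum]
    simp [Fin.sum_univ_two]
  rw [← this]
  rfl

lemma eval_scale {F : Pol} {m : ℕ} (hF : F.IsHomogeneous m) (c x y : ℂ) :
    eval ![c * x, c * y] F = c ^ m * eval ![x, y] F := by
  rw [eval_two, eval_two, Finset.mul_sum]
  refine Finset.sum_congr rfl fun d hd => ?_
  rw [← deg_two hF hd, mul_pow, mul_pow, pow_add]
  ring

/-- the dehomogenised polynomial -/
noncomputable def h (F : Pol) : Polynomial ℂ := aeval ![1, Polynomial.X] F

lemma h_eq (F : Pol) : h F = ∑ d ∈ F.support, Polynomial.C (coeff d F) * Polynomial.X ^ d 1 := by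
  unfold h
  rw [aeval_def, eval₂_eq']
  simp [Fin.prod_univ_two, Polynomial.algebraMap_eq]

lemma h_eval (F : Pol) (x : ℂ) : (h F).eval x = eval ![1, x] F := by
  rw [h_eq, eval_two, Polynomial.eval_finsetSum]
  simp

lemma h_der (F : Pol) : (h F).derivative = h (pderiv 1 F) := by
  unfold h
  induction F using MvPolynomial.induction_on with
  | C a => simp
  | add p q hp hq => simp only [map_add, hp, hq]
  | mul_X p i hp =>
    simp only [map_mul, Derivation.leibniz, Polynomial.derivative_mul, aeval_X, map_add, smul_eq_mul,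
      hp]
    fin_cases i
    · simp [pderiv_X]
    · simp [pderiv_X]
      ring

lemma h_coeff {F : Pol} {m : ℕ} (hF : F.IsHomogeneous m) :
    (h F).coeff m = eval ![0, 1] F := by
  rw [h_eq, eval_two, Polynomial.finsetSum_coeff]
  refine Finset.sum_congr rfl fun d hd => ?_
  have hd' := deg_two hF hd
  rw [Polynomial.coeff_C_mul, Polynomial.coeff_X_pow]
  by_cases h0 : d 0 = 0
  · have : m = d 1 := by omega
    simp [h0, this]
  · have : m ≠ d 1 := by omega
    simp [h0, this]

lemma h_natDegree_le {F : Pol} {m : ℕ} (hF : F.IsHomogeneous m) : (h F).natDegree ≤ m := by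
  rw [h_eq]
  refine Polynomial.natDegree_sum_le_of_forall_le _ _ fun d hd => ?_
  have hd' := deg_two hF hd
  exact (Polynomial.natDegree_C_mul_X_pow_le _ _).trans (by omega)

theorem end1 : S_END1 := by
  intro P hR h1
  set m := P.totalDegree with hm
  set F := lead P with hFdef
  have hF : F.IsHomogeneous m := homogeneousComponent_isHomogeneous m P
  have hdeg : (h F).natDegree = m := by
    refine le_antisymm (h_natDegree_le hF) (Polynomial.le_natDegree_of_ne_zero ?_)
    rw [h_coeff hF]
    exact h1
  have hne : h F ≠ 0 := by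
    intro h0
    have := h_coeff hF
    rw [h0, Polynomial.coeff_zero] at this
    exact h1 this.symm
  have hnodup : (h F).roots.Nodup := by
    rw [Multiset.nodup_iff_count_le_one]
    intro a
    rw [Polynomial.count_roots]
    by_contra hlt
    push Not at hlt
    rw [Polynomial.one_lt_rootMultiplicity_iff_isRoot hne] at hlt
    obtain ⟨hr, hd⟩ := hlt
    rw [Polynomial.IsRoot.def] at hr hd
    have hboth : (h F).eval a = 0 ∧ (h F).derivative.eval a = 0 := ⟨hr, hd⟩
    obtain ⟨ha, hda⟩ := hboth
    rw [h_eval] at ha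
    rw [h_der, h_eval] at hda
    have hane : (![1, a] : Fin 2 → ℂ) ≠ 0 := by
      intro h0
      have := congrFun h0 0
      simp at this
    obtain ⟨i, hi⟩ := hR ![1, a] hane ha
    apply hi
    have heu := congrArg (eval ![1, a]) hF.sum_X_mul_pderiv
    rw [Fin.sum_univ_two] at heu
    simp only [map_add, map_mul, eval_X, map_nsmul] at heu
    have h4 : eval ![1, a] F = 0 := ha
    rw [h4, hda] at heu
    simp at heu
    fin_cases i
    · exact heu
    · exact hda
  have hcard : (h F).roots.toFinset.card = m := by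
    rw [Multiset.toFinset_card_of_nodup hnodup, ← hdeg]
    exact (Polynomial.splits_iff_card_roots.1 (IsAlgClosed.splits (h F)))
  let α : Fin m → ℂ := fun j => ((Finset.equivFinOfCardEq hcard).symm j : ℂ)
  have hα : ∀ j, eval ![1, α j] F = 0 := by
    intro j
    have h5 := ((Finset.equivFinOfCardEq hcard).symm j).2
    rw [Multiset.mem_toFinset, Polynomial.mem_roots hne, Polynomial.IsRoot.def, h_eval] at h5
    exact h5
  have hinj : ∀ j k, j ≠ k → α j ≠ α k := by
    intro j k hjk h6
    exact hjk ((Finset.equivFinOfCardEq hcard).symm.injective (Subtype.ext h6))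
  let p : Fin m → ℂ := fun j => (((Real.sqrt (1 + ‖α j‖ ^ 2))⁻¹ : ℝ) : ℂ)
  have hs : ∀ j, 0 < Real.sqrt (1 + ‖α j‖ ^ 2) := fun j => Real.sqrt_pos.2 (by positivity)
  have hp : ∀ j, p j ≠ 0 := by
    intro j h7
    have := (Complex.ofReal_eq_zero.1 h7)
    exact (inv_ne_zero (hs j).ne') this
  refine ⟨p, fun j => p j * α j, ?_, hp, ?_, ?_⟩
  · intro j
    have h8 : ‖p j‖ = (Real.sqrt (1 + ‖α j‖ ^ 2))⁻¹ := by
      simp only [p]
      rw [Complex.norm_real, Real.norm_of_nonneg (inv_nonneg.2 (hs j).le)]
    rw [norm_mul, h8, mul_pow, inv_pow, Real.sq_sqrt (by positivity)]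
    field_simp
  · intro j k hjk h9
    have h10 : α k = α j := by
      have : p j * p k * (α k - α j) = 0 := by linear_combination h9
      rcases mul_eq_zero.1 this with h11 | h11
      · exact absurd h11 (mul_ne_zero (hp j) (hp k))
      · exact sub_eq_zero.1 h11
    exact hinj j k hjk h10.symm
  · intro j
    have h12 := eval_scale hF (p j) 1 (α j)
    rw [mul_one] at h12
    rw [h12, hα j, mul_zero]

end Pool.Agent.Helper21.FB.End1

namespace Pool.Agent.Helper25.FB

theorem end1_thm : S_END1 := Pool.Agent.Helper21.FB.End1.end1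

end Pool.Agent.Helper25.FB
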