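import Pool.Agent.Helper21.FB.LAU

set_option autoImplicit false

namespace Pool.Agent.Helper21.FB

open Pool.Agent.Helper25.FB Filter Topology Metric Set

lemma fac_exp (l : ℕ) (hl : 1 ≤ l) :
    (l.factorial : ℝ) * Real.exp l ≤ Real.exp 1 * l * (l : ℝ) ^ l := by
  induction l, hl using Nat.le_induction with
  | base => simp
  | succ l hl ih =>
    have hl0 : (0 : ℝ) < l := by exact_mod_cast hl
    have h1 : (l : ℝ) ^ (l + 1) * Real.exp 1 ≤ ((l : ℝ) + 1) ^ (l + 1) := by
      have h2 : (l : ℝ) / (l + 1) ≤ Real.exp (-(1 / ((l : ℝ) + 1))) := by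
        have h3 := Real.add_one_le_exp (-(1 / ((l : ℝ) + 1)))
        have h4 : -(1 / ((l : ℝ) + 1)) + 1 = (l : ℝ) / (l + 1) := by field_simp; ring
        rwa [h4] at h3
      have h5 : ((l : ℝ) / (l + 1)) ^ (l + 1) ≤ Real.exp (-1) := by
        refine (pow_le_pow_left₀ (by positivity) h2 (l + 1)).trans (le_of_eq ?_)
        rw [← Real.exp_nat_mul]
        congr 1
        push_cast
        field_simp
      rw [div_pow, div_le_iff₀ (by positivity)] at h5
      have h6 := mul_le_mul_of_nonneg_right h5 (Real.exp_pos 1).le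
      refine h6.trans (le_of_eq ?_)
      rw [Real.exp_neg]
      field_simp
    rw [Nat.factorial_succ]
    push_cast
    rw [Real.exp_add]
    calc ((l : ℝ) + 1) * l.factorial * (Real.exp l * Real.exp 1)
        = ((l : ℝ) + 1) * Real.exp 1 * (l.factorial * Real.exp l) := by ring
      _ ≤ ((l : ℝ) + 1) * Real.exp 1 * (Real.exp 1 * l * (l : ℝ) ^ l) :=
          mul_le_mul_of_nonneg_left ih (by positivity)
      _ = Real.exp 1 * ((l : ℝ) + 1) * ((l : ℝ) ^ (l + 1) * Real.exp 1) := by ring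
      _ ≤ Real.exp 1 * ((l : ℝ) + 1) * ((l : ℝ) + 1) ^ (l + 1) :=
          mul_le_mul_of_nonneg_left h1 (by positivity)

theorem fac : S_LAU → S_FAC := by
  intro hL ρ c B hρ hc hcB hρB
  have hB : 0 < B := hc.trans hcB
  have hx0 : 0 ≤ c / B := (div_pos hc hB).le
  have hx1 : c / B < 1 := (div_lt_one hB).2 hcB
  -- the two dominating sequences
  let b₁ : ℕ → ℝ := fun l => Real.exp 1 * (l * (c / B) ^ l)
  let b₂ : ℕ → ℝ := fun l => if (l : ℝ) ≤ c * ρ ∨ l = 0 then
    (l.factorial : ℝ) / B ^ l * (Real.exp (c * B) * (B ^ l)⁻¹) else 0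
  have hb₁ : ∀ l, 0 ≤ b₁ l := fun l => by positivity
  have hb₂ : ∀ l, 0 ≤ b₂ l := fun l => by
    simp only [b₂]
    split_ifs
    · positivity
    · exact le_rfl
  have s₁ : Summable b₁ := by
    have h := summable_pow_mul_geometric_of_norm_lt_one (R := ℝ) 1 (r := c / B)
      (by rw [Real.norm_of_nonneg hx0]; exact hx1)
    simp only [pow_one] at h
    exact h.mul_left _
  have s₂ : Summable b₂ := by
    refine summable_of_hasFiniteSupport (Set.Finite.subset (Set.finite_Iic (⌈c * ρ⌉₊)) ?_)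
    intro l hl
    rw [Function.mem_support] at hl
    simp only [b₂] at hl
    have : (l : ℝ) ≤ c * ρ ∨ l = 0 := by
      by_contra h
      exact hl (if_neg h)
    rw [Set.mem_Iic]
    rcases this with h | h
    · exact_mod_cast h.trans (Nat.le_ceil _)
    · rw [h]; exact Nat.zero_le _
  refine ⟨∑' l, (b₁ l + b₂ l), tsum_nonneg fun l => add_nonneg (hb₁ l) (hb₂ l), ?_⟩
  intro φ M hM hφ hg
  obtain ⟨h1, h2, -⟩ := hL φ ρ hρ hφ
  have key : ∀ l : ℕ, ‖(l.factorial : ℂ) / (B : ℂ) ^ l * Lc B φ l‖ ≤ M * (b₁ l + b₂ l) := by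
    intro l
    have e0 : ‖(l.factorial : ℂ) / (B : ℂ) ^ l * Lc B φ l‖ =
        (l.factorial : ℝ) / B ^ l * ‖Lc B φ l‖ := by
      rw [norm_mul, norm_div, norm_pow, Complex.norm_natCast, Complex.norm_real,
        Real.norm_of_nonneg hB.le]
    rw [e0]
    by_cases hl : (l : ℝ) ≤ c * ρ ∨ l = 0
    · have h3 := h2 B (M * Real.exp (c * B)) l hρB (fun s hs => by
        have := hg s (by rw [hs]; exact hρB)
        rwa [hs] at this)
      have h4 : b₂ l = (l.factorial : ℝ) / B ^ l * (Real.exp (c * B) * (B ^ l)⁻¹) := by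
        simp only [b₂]
        rw [if_pos hl]
      rw [zpow_neg, zpow_natCast] at h3
      calc (l.factorial : ℝ) / B ^ l * ‖Lc B φ l‖
          ≤ (l.factorial : ℝ) / B ^ l * (M * Real.exp (c * B) * (B ^ l)⁻¹) :=
            mul_le_mul_of_nonneg_left h3 (by positivity)
        _ = M * b₂ l := by rw [h4]; ring
        _ ≤ M * (b₁ l + b₂ l) := mul_le_mul_of_nonneg_left (by linarith [hb₁ l]) hM
    · push Not at hl
      obtain ⟨hl1, hl2⟩ := hl
      have hl3 : 1 ≤ l := Nat.one_le_iff_ne_zero.2 hl2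
      have hl0 : (0 : ℝ) < l := by exact_mod_cast hl3
      have hR : ρ < (l : ℝ) / c := by
        rw [lt_div_iff₀ hc]
        linarith
      have h3 := h2 ((l : ℝ) / c) (M * Real.exp (c * ((l : ℝ) / c))) l hR (fun s hs => by
        have := hg s (by rw [hs]; exact hR)
        rwa [hs] at this)
      rw [h1 ((l : ℝ) / c) B l hR hρB] at h3
      have h5 : c * ((l : ℝ) / c) = l := by field_simp
      rw [h5, zpow_neg, zpow_natCast] at h3
      have h6 := fac_exp l hl3
      calc (l.factorial : ℝ) / B ^ l * ‖Lc B φ l‖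
          ≤ (l.factorial : ℝ) / B ^ l * (M * Real.exp l * (((l : ℝ) / c) ^ l)⁻¹) :=
            mul_le_mul_of_nonneg_left h3 (by positivity)
        _ = M * (l.factorial * Real.exp l) * (c ^ l / (B ^ l * (l : ℝ) ^ l)) := by
            rw [div_pow]; field_simp
        _ ≤ M * (Real.exp 1 * l * (l : ℝ) ^ l) * (c ^ l / (B ^ l * (l : ℝ) ^ l)) := by
            refine mul_le_mul_of_nonneg_right (mul_le_mul_of_nonneg_left h6 hM) (by positivity)
        _ = M * b₁ l := by
            simp only [b₁]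
            rw [div_pow]; field_simp
        _ ≤ M * (b₁ l + b₂ l) := mul_le_mul_of_nonneg_left (by linarith [hb₂ l]) hM
  have s : Summable fun l => M * (b₁ l + b₂ l) := (s₁.add s₂).mul_left M
  have s' := Summable.of_nonneg_of_le (fun l => norm_nonneg _) key s
  refine ⟨s', ?_⟩
  rw [← tsum_mul_left]
  exact s'.tsum_le_tsum key s

end Pool.Agent.Helper21.FB

namespace Pool.Agent.Helper25.FB

theorem fac_thm (h : S_LAU) : S_FAC := Pool.Agent.Helper21.FB.fac h

end Pool.Agent.Helper25.FB
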