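import Pool.Agent.Helper21.FB.LAU

set_option autoImplicit false

namespace Pool.Agent.Helper21.FB

open Pool.Agent.Helper25.FB Filter Topology Metric Set Inj

/-- conjugation in one variable -/
lemma conj_at {f : ℂ → ℂ} {x : ℂ} (h : DifferentiableAt ℂ f ((starRingEnd ℂ) x)) :
    DifferentiableAt ℂ (fun t => (starRingEnd ℂ) (f ((starRingEnd ℂ) t))) x := by
  have := h.conj_conj
  rw [Complex.conj_conj] at this
  exact this

variable {P : Pol} {m : ℕ} (E : Ends P m)

lemma conj_norm (t : ℂ) : ‖(starRingEnd ℂ) t‖ = ‖t‖ := by simp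

/-- the parametrisation of an end is holomorphic -/
lemma w_diff (j : Fin m) (a : Fin 2) {s : ℂ} (hs : E.r⁻¹ < ‖s‖) :
    DifferentiableAt ℂ (fun s => E.w j s a) s := by
  have hr := E.r0
  have hs0 : 0 < ‖s‖ := (inv_pos.2 hr).trans hs
  have hne : s ≠ 0 := norm_pos_iff.1 hs0
  have hb : s⁻¹ ∈ Metric.ball (0 : ℂ) E.r := by
    rw [mem_ball, dist_zero_right, norm_inv]
    exact inv_lt_of_inv_lt₀ hr hs
  have hV : DifferentiableAt ℂ (fun s => E.V j s⁻¹) s :=
    ((E.hol j).differentiableAt (isOpen_ball.mem_nhds hb)).comp s (differentiableAt_inv hne)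
  fin_cases a
  · show DifferentiableAt ℂ (fun s => E.p j * s - E.V j s⁻¹ * (starRingEnd ℂ) (E.q j)) s
    exact (differentiableAt_id.const_mul _).sub (hV.mul_const _)
  · show DifferentiableAt ℂ (fun s => E.q j * s + E.V j s⁻¹ * (starRingEnd ℂ) (E.p j)) s
    exact (differentiableAt_id.const_mul _).add (hV.mul_const _)

lemma z_diff (k : Fin m) {t : ℂ} (ht : E.r⁻¹ < ‖t‖) :
    DifferentiableAt ℂ (fun t => E.z k t) t := by
  rw [differentiableAt_pi]
  intro a
  exact conj_at (f := fun s => E.w k s a) (w_diff E k a (by rwa [conj_norm]))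

lemma gz_diff (k : Fin m) {G : (Fin 2 → ℂ) → ℂ} (hG : Entire G) :
    DifferentiableOn ℂ (fun t => G (E.z k t)) {t | E.r⁻¹ < ‖t‖} := by
  intro t ht
  exact (DifferentiableAt.comp t (hG _) (z_diff E k ht)).differentiableWithinAt

theorem zero : S_LAU → S_ZERO := by
  intro hL P m E G B hB hG h0 k
  have hr := E.r0
  have hB0 : 0 < B := (inv_pos.2 hr).trans hB
  refine (hL (fun t => G (E.z k t)) E.r⁻¹ (inv_pos.2 hr).le (gz_diff E k hG)).2.2 B hB ?_
  intro n
  have h1 := h0 (k, n)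
  unfold kn at h1
  rcases mul_eq_zero.1 h1 with h2 | h2
  · exfalso
    have h3 : ((n.factorial : ℂ)) ≠ 0 := by exact_mod_cast n.factorial_ne_zero
    have h4 : ((B : ℂ) ^ n) ≠ 0 := pow_ne_zero _ (by exact_mod_cast hB0.ne')
    exact (div_ne_zero h3 h4) h2
  · exact h2

end Pool.Agent.Helper21.FB

namespace Pool.Agent.Helper25.FB

theorem zero_thm (h : S_LAU) : S_ZERO := Pool.Agent.Helper21.FB.zero h

end Pool.Agent.Helper25.FB
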