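import Pool.Agent.Helper21.FB.FAC
import Pool.Agent.Helper21.FB.ZERO

set_option autoImplicit false

namespace Pool.Agent.Helper21.FB

open Pool.Agent.Helper25.FB Filter Topology Metric Set Inj

variable {P : Pol} {m : ℕ} (E : Ends P m)

lemma C_nonneg (j : Fin m) : 0 ≤ E.C :=
  (norm_nonneg _).trans (E.bd j 0 (mem_ball_self E.r0))

lemma pq_le (j : Fin m) : ‖E.p j‖ ≤ 1 ∧ ‖E.q j‖ ≤ 1 := by
  have h := E.unit j
  constructor <;> nlinarith [sq_nonneg ‖E.p j‖, sq_nonneg ‖E.q j‖, norm_nonneg (E.p j),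
    norm_nonneg (E.q j)]

lemma w_le (j : Fin m) {s : ℂ} (hs : E.r⁻¹ < ‖s‖) : ‖E.w j s‖ ≤ ‖s‖ + E.C := by
  have hr := E.r0
  have hC := C_nonneg E j
  have hb : s⁻¹ ∈ Metric.ball (0 : ℂ) E.r := by
    rw [mem_ball, dist_zero_right, norm_inv]
    exact inv_lt_of_inv_lt₀ hr hs
  have hV := E.bd j _ hb
  obtain ⟨hp, hq⟩ := pq_le E j
  rw [pi_norm_le_iff_of_nonneg (by positivity)]
  intro a
  have hcq : ‖(starRingEnd ℂ) (E.q j)‖ ≤ 1 := by rw [conj_norm]; exact hq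
  have hcp : ‖(starRingEnd ℂ) (E.p j)‖ ≤ 1 := by rw [conj_norm]; exact hp
  fin_cases a
  · show ‖E.p j * s - E.V j s⁻¹ * (starRingEnd ℂ) (E.q j)‖ ≤ ‖s‖ + E.C
    refine (norm_sub_le _ _).trans ?_
    rw [norm_mul, norm_mul]
    have h1 := mul_le_mul_of_nonneg_right hp (norm_nonneg s)
    have h2 := mul_le_mul hV hcq (norm_nonneg _) hC
    linarith
  · show ‖E.q j * s + E.V j s⁻¹ * (starRingEnd ℂ) (E.p j)‖ ≤ ‖s‖ + E.C
    refine (norm_add_le _ _).trans ?_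
    rw [norm_mul, norm_mul]
    have h1 := mul_le_mul_of_nonneg_right hq (norm_nonneg s)
    have h2 := mul_le_mul hV hcp (norm_nonneg _) hC
    linarith

lemma z_le (j : Fin m) {t : ℂ} (ht : E.r⁻¹ < ‖t‖) : ‖E.z j t‖ ≤ ‖t‖ + E.C := by
  have hC := C_nonneg E j
  have h := w_le E j (s := (starRingEnd ℂ) t) (by rwa [conj_norm])
  rw [conj_norm] at h
  rw [pi_norm_le_iff_of_nonneg (by positivity)]
  intro a
  show ‖(starRingEnd ℂ) (E.w j ((starRingEnd ℂ) t) a)‖ ≤ _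
  rw [conj_norm]
  exact (norm_le_pi_norm _ a).trans h

theorem sum : S_FAC → S_SUM := by
  intro hF P m E G hG
  obtain ⟨hGe, C₀, B', hGb⟩ := hG
  have hr := E.r0
  have hri := inv_pos.2 hr
  set c : ℝ := |B'| + 1 with hc
  have hc0 : 0 < c := by positivity
  refine ⟨c + E.r⁻¹ + 1, fun B hB => ?_⟩
  obtain ⟨K, hK, hsum⟩ := hF E.r⁻¹ c B hri.le hc0 (by linarith) (by linarith)
  have hk : ∀ k : Fin m, Summable fun l : ℕ => ‖kn E B G (k, l)‖ := by
    intro k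
    have hC := C_nonneg E k
    refine (hsum (fun t => G (E.z k t)) (|C₀| * Real.exp (c * E.C)) (by positivity)
      (gz_diff E k hGe) ?_).1
    intro t ht
    have h1 := hGb (E.z k t)
    have h2 := z_le E k ht
    refine h1.trans ?_
    have h3 : B' * ‖E.z k t‖ ≤ c * E.C + c * ‖t‖ := by
      have h4 : B' * ‖E.z k t‖ ≤ c * ‖E.z k t‖ :=
        mul_le_mul_of_nonneg_right (by rw [hc]; linarith [le_abs_self B']) (norm_nonneg _)
      have h5 := mul_le_mul_of_nonneg_left h2 hc0.le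
      linarith
    calc C₀ * Real.exp (B' * ‖E.z k t‖) ≤ |C₀| * Real.exp (B' * ‖E.z k t‖) :=
          mul_le_mul_of_nonneg_right (le_abs_self _) (Real.exp_pos _).le
      _ ≤ |C₀| * Real.exp (c * E.C + c * ‖t‖) :=
          mul_le_mul_of_nonneg_left (Real.exp_le_exp.2 h3) (abs_nonneg _)
      _ = |C₀| * Real.exp (c * E.C) * Real.exp (c * ‖t‖) := by rw [Real.exp_add]; ring
  rw [summable_prod_of_nonneg (fun _ => norm_nonneg _)]
  exact ⟨hk, Summable.of_finite⟩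

end Pool.Agent.Helper21.FB

namespace Pool.Agent.Helper25.FB

theorem sum_thm (h : S_FAC) : S_SUM := Pool.Agent.Helper21.FB.sum h

end Pool.Agent.Helper25.FB
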